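import Pool.Agent.Helper57_K9.Stmts
import Pool.Agent.Helper75_K9.LBR
import Pool.Agent.Helper94_PP.Nch

/-!
# Squad K9, module EXP: the chains if the good subgroups have order at most `ℓ ^ 2`
-/

open scoped BigOperators

set_option linter.unusedSectionVars false

noncomputable section

namespace Pool.Agent.PP.K9.H56

open Pool.Agent.Helper51_AWC Pool.Agent.Helper79_WRA Pool.Agent.PP Pool.Agent.PP.K9

section chains

variable {G : Type} [Group G] [Finite G] {ℓ : ℕ}

/-- the properties of a normal chain of `ℓ`-subgroups -/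
structure CH (ℓ : ℕ) (d : Finset (Subgroup G)) : Prop where
  pg : ∀ D ∈ d, IsPGroup ℓ D
  bot : ⊥ ∈ d
  ch : IsChain (· ≤ ·) (d : Set (Subgroup G))
  nc : NormalChain d

open Classical in
theorem mem_iff {d : Finset (Subgroup G)} :
    d ∈ (chainsOn (psubIn ℓ (⊤ : Subgroup G)) ⊥).filter NormalChain ↔ CH ℓ d := by
  rw [Finset.mem_filter, mem_chainsOn]
  constructor
  · rintro ⟨⟨h1, h2, h3⟩, h4⟩
    exact ⟨fun D hD => (mem_psubIn.1 (h1 hD)).2, h2, h3, h4⟩
  · rintro ⟨h1, h2, h3, h4⟩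
    exact ⟨⟨fun D hD => mem_psubIn.2 ⟨le_top, h1 D hD⟩, h2, h3⟩, h4⟩

theorem CH.top {d : Finset (Subgroup G)} (h : CH ℓ d) : top d ∈ d ∧ ∀ D ∈ d, D ≤ top d :=
  H94.top_mem h.ch ⟨⊥, h.bot⟩

theorem CH.norm {d : Finset (Subgroup G)} (h : CH ℓ d) :
    stab d ≤ Subgroup.normalizer (PP.top d : Set G) := by
  intro x hx
  exact H94.mem_stab'.1 hx _ h.top.1

theorem CH.le {d : Finset (Subgroup G)} (h : CH ℓ d) : PP.top d ≤ stab d := by
  intro x hx
  rw [H94.mem_stab']
  intro D hD
  exact h.nc D hD hx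

theorem norm_bot : Subgroup.normalizer ((⊥ : Subgroup G) : Set G) = ⊤ := by
  rw [eq_top_iff]
  intro x _
  rw [Subgroup.mem_normalizer_iff]
  intro y
  rw [Subgroup.mem_bot, Subgroup.mem_bot]
  constructor
  · rintro rfl
    simp
  · intro h4
    simpa using h4

open Classical in
theorem stab_ins {d : Finset (Subgroup G)} {V : Subgroup G} :
    stab (insert V d) = Subgroup.normalizer (V : Set G) ⊓ stab d := by
  ext x
  rw [Subgroup.mem_inf, H94.mem_stab', H94.mem_stab']
  constructor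
  · intro h3
    exact ⟨h3 V (Finset.mem_insert_self _ _), fun D hD => h3 D (Finset.mem_insert_of_mem hD)⟩
  · rintro ⟨h4, h3⟩ D hD
    rcases Finset.mem_insert.1 hD with rfl | hD
    · exact h4
    · exact h3 D hD

theorem stab_bot : stab ({⊥} : Finset (Subgroup G)) = ⊤ := by
  rw [eq_top_iff]
  intro x _
  rw [H94.mem_stab']
  intro D hD
  rw [Finset.mem_singleton.1 hD, norm_bot]
  exact Subgroup.mem_top x

open Classical in
theorem stab_one (Q : Subgroup G) : stab ({⊥, Q} : Finset (Subgroup G)) =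
    Subgroup.normalizer (Q : Set G) := by
  ext x
  rw [H94.mem_stab']
  constructor
  · intro h
    exact h Q (by simp)
  · intro h D hD
    rcases Finset.mem_insert.1 hD with rfl | hD
    · rw [norm_bot]
      exact Subgroup.mem_top x
    · rw [Finset.mem_singleton.1 hD]
      exact h

open Classical in
theorem stab_two (Q V : Subgroup G) : stab ({⊥, Q, V} : Finset (Subgroup G)) =
    Subgroup.normalizer (Q : Set G) ⊓ Subgroup.normalizer (V : Set G) := by
  ext x
  rw [H94.mem_stab', Subgroup.mem_inf]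
  constructor
  · intro h
    exact ⟨h Q (by simp), h V (by simp)⟩
  · rintro ⟨h1, h2⟩ D hD
    rcases Finset.mem_insert.1 hD with rfl | hD
    · rw [norm_bot]
      exact Subgroup.mem_top x
    · rcases Finset.mem_insert.1 hD with rfl | hD
      · exact h1
      · rw [Finset.mem_singleton.1 hD]
        exact h2

theorem top_of {d : Finset (Subgroup G)} {V : Subgroup G} (hV : V ∈ d) (h : ∀ D ∈ d, D ≤ V) :
    top d = V :=
  le_antisymm (sSup_le fun D hD => h D (Finset.mem_coe.1 hD)) (le_sSup (Finset.mem_coe.2 hV))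

theorem top_bot : top ({⊥} : Finset (Subgroup G)) = ⊥ := by
  refine top_of (Finset.mem_singleton_self _) ?_
  intro D hD
  exact (Finset.mem_singleton.1 hD).le

open Classical in
theorem top_one (Q : Subgroup G) : top ({⊥, Q} : Finset (Subgroup G)) = Q := by
  refine top_of (by simp) ?_
  intro D hD
  rcases Finset.mem_insert.1 hD with rfl | hD
  · exact bot_le
  · exact (Finset.mem_singleton.1 hD).le

open Classical in
theorem top_two {Q V : Subgroup G} (h : Q ≤ V) : top ({⊥, Q, V} : Finset (Subgroup G)) = V := by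
  refine top_of (by simp) ?_
  intro D hD
  rcases Finset.mem_insert.1 hD with rfl | hD
  · exact bot_le
  · rcases Finset.mem_insert.1 hD with rfl | hD
    · exact h
    · exact (Finset.mem_singleton.1 hD).le

theorem ch_bot : CH ℓ ({⊥} : Finset (Subgroup G)) := by
  refine ⟨?_, Finset.mem_singleton_self _, ?_, ?_⟩
  · intro D hD
    rw [Finset.mem_singleton.1 hD]
    exact IsPGroup.of_bot
  · rw [Finset.coe_singleton]
    exact IsChain.singleton
  · intro D hD
    rw [Finset.mem_singleton.1 hD, norm_bot]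
    exact le_top

open Classical in
theorem ch_one {Q : Subgroup G} (hQ : IsPGroup ℓ Q) : CH ℓ ({⊥, Q} : Finset (Subgroup G)) := by
  refine ⟨?_, by simp, ?_, ?_⟩
  · intro D hD
    rcases Finset.mem_insert.1 hD with rfl | hD
    · exact IsPGroup.of_bot
    · rw [Finset.mem_singleton.1 hD]
      exact hQ
  · rw [Finset.coe_insert, Finset.coe_singleton]
    refine IsChain.singleton.insert ?_
    intro D _ _
    exact Or.inl bot_le
  · intro D hD
    rw [top_one]
    rcases Finset.mem_insert.1 hD with rfl | hD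
    · rw [norm_bot]
      exact le_top
    · rw [Finset.mem_singleton.1 hD]
      exact Subgroup.le_normalizer

open Classical in
theorem ch_two {Q V : Subgroup G} (hV : IsPGroup ℓ V) (h : Q ≤ V)
    (hn : V ≤ Subgroup.normalizer (Q : Set G)) : CH ℓ ({⊥, Q, V} : Finset (Subgroup G)) := by
  refine ⟨?_, by simp, ?_, ?_⟩
  · intro D hD
    rcases Finset.mem_insert.1 hD with rfl | hD
    · exact IsPGroup.of_bot
    · rcases Finset.mem_insert.1 hD with rfl | hD
      · exact hV.to_le h
      · rw [Finset.mem_singleton.1 hD]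
        exact hV
  · rw [Finset.coe_insert, Finset.coe_insert, Finset.coe_singleton]
    refine (IsChain.singleton.insert ?_).insert ?_
    · intro D hD _
      rw [Set.mem_singleton_iff.1 hD]
      exact Or.inl h
    · intro D _ _
      exact Or.inl bot_le
  · intro D hD
    rw [top_two h]
    rcases Finset.mem_insert.1 hD with rfl | hD
    · rw [norm_bot]
      exact le_top
    · rcases Finset.mem_insert.1 hD with rfl | hD
      · exact hn
      · rw [Finset.mem_singleton.1 hD]
        exact Subgroup.le_normalizer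

/-- a group of order `ℓ ^ 2` normalises its subgroups -/
theorem sq_norm [Fact ℓ.Prime] {Q V : Subgroup G} (hV : Nat.card V = ℓ ^ 2) (h : Q ≤ V) :
    V ≤ Subgroup.normalizer (Q : Set G) := by
  have hc : ∀ a b : V, a * b = b * a := fun a b => (IsPGroup.isMulCommutative_of_card_eq_prime_sq hV).is_comm.comm a b
  intro x hx
  rw [Subgroup.mem_normalizer_iff]
  intro y
  constructor
  · intro hy
    have h1 := congrArg Subtype.val (hc ⟨x, hx⟩ ⟨y, h hy⟩)
    change x * y = y * x at h1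
    rw [h1, mul_inv_cancel_right]
    exact hy
  · intro hy
    have h0 : y ∈ V := by
      have h2 := mul_mem (mul_mem (inv_mem hx) (h hy)) hx
      have h3 : x⁻¹ * (x * y * x⁻¹) * x = y := by group
      rwa [h3] at h2
    have h1 := congrArg Subtype.val (hc ⟨x, hx⟩ ⟨y, h0⟩)
    change x * y = y * x at h1
    rw [h1, mul_inv_cancel_right] at hy
    exact hy

open Classical in
/-- the chains with a top of order at most `ℓ` -/
theorem CH.small {d : Finset (Subgroup G)} (h : CH ℓ d) (hl : ℓ.Prime)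
    (hc : Nat.card (PP.top d) = ℓ) : d = {⊥, PP.top d} := by
  ext D
  rw [Finset.mem_insert, Finset.mem_singleton]
  constructor
  · intro hD
    have h1 := h.top.2 D hD
    have h2 : Nat.card D ∣ ℓ := hc ▸ Subgroup.card_dvd_of_le h1
    rcases (Nat.dvd_prime hl).1 h2 with h3 | h3
    · exact Or.inl (Subgroup.card_eq_one.1 h3)
    · exact Or.inr (Subgroup.eq_of_le_of_card_ge h1 (by rw [h3, hc]))
  · rintro (rfl | h1)
    · exact h.bot
    · rw [h1]
      exact h.top.1

theorem CH.one {d : Finset (Subgroup G)} (h : CH ℓ d) (hc : Nat.card (PP.top d) = 1) :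
    d = {⊥} := by
  ext D
  rw [Finset.mem_singleton]
  constructor
  · intro hD
    have h1 := h.top.2 D hD
    rw [Subgroup.card_eq_one.1 hc, le_bot_iff] at h1
    exact h1
  · rintro rfl
    exact h.bot

open Classical in
theorem CH.two {d : Finset (Subgroup G)} (h : CH ℓ d) (hl : ℓ.Prime)
    (hc : Nat.card (PP.top d) = ℓ ^ 2) : d = {⊥, PP.top d} ∨
      ∃ Q : Subgroup G, Nat.card Q = ℓ ∧ Q ≤ PP.top d ∧ d = {⊥, Q, PP.top d} := by
  have h0 : ∀ D ∈ d, D = ⊥ ∨ Nat.card D = ℓ ∨ D = PP.top d := by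
    intro D hD
    have h1 := h.top.2 D hD
    have h2 : Nat.card D ∣ ℓ ^ 2 := hc ▸ Subgroup.card_dvd_of_le h1
    obtain ⟨k, hk, hk'⟩ := (Nat.dvd_prime_pow hl).1 h2
    interval_cases k
    · exact Or.inl (Subgroup.card_eq_one.1 (by rw [hk', pow_zero]))
    · exact Or.inr (Or.inl (by rw [hk', pow_one]))
    · exact Or.inr (Or.inr (Subgroup.eq_of_le_of_card_ge h1 (by rw [hk', hc])))
  by_cases hQ : ∃ Q ∈ d, Nat.card Q = ℓ
  · obtain ⟨Q, hQd, hQc⟩ := hQ
    refine Or.inr ⟨Q, hQc, h.top.2 Q hQd, ?_⟩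
    ext D
    rw [Finset.mem_insert, Finset.mem_insert, Finset.mem_singleton]
    constructor
    · intro hD
      rcases h0 D hD with h1 | h1 | h1
      · exact Or.inl h1
      · refine Or.inr (Or.inl ?_)
        rcases chain_total h.ch hD hQd with h2 | h2
        · exact Subgroup.eq_of_le_of_card_ge h2 (by rw [h1, hQc])
        · exact (Subgroup.eq_of_le_of_card_ge h2 (by rw [h1, hQc])).symm
      · exact Or.inr (Or.inr h1)
    · rintro (rfl | rfl | h1)
      · exact h.bot
      · exact hQd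
      · rw [h1]
        exact h.top.1
  · left
    ext D
    rw [Finset.mem_insert, Finset.mem_singleton]
    constructor
    · intro hD
      rcases h0 D hD with h1 | h1 | h1
      · exact Or.inl h1
      · exact absurd ⟨D, hD, h1⟩ hQ
      · exact Or.inr h1
    · rintro (rfl | h1)
      · exact h.bot
      · rw [h1]
        exact h.top.1

end chains

/-- EXP -/
theorem exp : ExpStmt := by
  classical
  intro ℓ _ F _ hF G _ _ e he hgood
  have hl : ℓ.Prime := hF.prime
  have hl1 : 1 < ℓ := hl.one_lt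
  have hfin : Fintype (Subgroup G) := Fintype.ofFinite _
  obtain ⟨f, hf⟩ : ∃ f : Finset (Subgroup G) → ℤ, f = fun d => (-1 : ℤ) ^ (d.card + 1) *
    ((Nat.card (stab d) : ℤ) * (lnum (stab d) e : ℤ)) := ⟨_, rfl⟩
  obtain ⟨S, hS⟩ : ∃ S : Finset (Finset (Subgroup G)),
      S = (chainsOn (psubIn ℓ (⊤ : Subgroup G)) ⊥).filter NormalChain := ⟨_, rfl⟩
  have hmem : ∀ d, d ∈ S ↔ CH ℓ d := fun d => by rw [hS]; exact mem_iff
  have hYY : YY ℓ ⊤ e = ∑ d ∈ S, f d := by
    rw [hS, hf]
    exact H94.nch ℓ G ⊤ (fun X _ => (Nat.card X : ℤ) * (lnum X e : ℤ))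
  -- the orders
  have hord : ∀ d, CH ℓ d → f d ≠ 0 → Nat.card (top d) = 1 ∨ Nat.card (top d) = ℓ ∨
      Nat.card (top d) = ℓ ^ 2 := by
    intro d hd h0
    have h1 : Gd e (top d) := by
      by_contra h2
      apply h0
      rw [hf]
      have h3 := (H75.lbr ℓ F hF G e he (top d) (stab d) (hd.pg _ hd.top.1) hd.le hd.norm).2 h2
      simp only [h3, Nat.cast_zero, mul_zero]
    have h2 := hgood _ (hd.pg _ hd.top.1) h1
    obtain ⟨k, hk⟩ := (IsPGroup.iff_card).1 (hd.pg _ hd.top.1)
    rw [hk] at h2 ⊢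
    have h3 : k ≤ 2 := (Nat.pow_le_pow_iff_right hl1).1 h2
    interval_cases k
    · exact Or.inl (pow_zero _)
    · exact Or.inr (Or.inl (pow_one _))
    · exact Or.inr (Or.inr rfl)
  have n1 : ℓ ≠ 1 := hl1.ne'
  have n2 : ℓ ^ 2 ≠ 1 := by
    intro h
    have := Nat.one_lt_pow (n := 2) (by norm_num) hl1
    omega
  have n3 : ℓ ^ 2 ≠ ℓ := by
    intro h
    have h1 : ℓ ^ 1 < ℓ ^ 2 := Nat.pow_lt_pow_right hl1 (by norm_num)
    rw [pow_one] at h1
    omega
  have nb : ∀ Q : Subgroup G, Nat.card Q = ℓ → (⊥ : Subgroup G) ≠ Q := by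
    rintro Q hQ rfl
    rw [Subgroup.card_bot] at hQ
    exact n1 hQ.symm
  have nb2 : ∀ Q : Subgroup G, Nat.card Q = ℓ ^ 2 → (⊥ : Subgroup G) ≠ Q := by
    rintro Q hQ rfl
    rw [Subgroup.card_bot] at hQ
    exact n2 hQ.symm
  have nqv : ∀ Q V : Subgroup G, Nat.card Q = ℓ → Nat.card V = ℓ ^ 2 → Q ≠ V := by
    rintro Q V hQ hV rfl
    exact n3 (hV.symm.trans hQ)
  -- the values
  have v0 : f {⊥} = (Nat.card G : ℤ) * lnum (⊤ : Subgroup G) e := by
    rw [hf]
    simp only [stab_bot, Finset.card_singleton]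
    rw [Nat.card_congr (Subgroup.topEquiv (G := G)).toEquiv]
    norm_num
  have v1 : ∀ Q : Subgroup G, (⊥ : Subgroup G) ≠ Q → f {⊥, Q} =
      -((Nat.card (Subgroup.normalizer (Q : Set G)) : ℤ) *
          lnum (Subgroup.normalizer (Q : Set G)) e) := by
    intro Q hQ
    rw [hf]
    simp only [stab_one, Finset.card_pair hQ]
    norm_num
  have v2 : ∀ Q V : Subgroup G, Nat.card Q = ℓ → Nat.card V = ℓ ^ 2 → f {⊥, Q, V} =
      (Nat.card (Subgroup.normalizer (Q : Set G) ⊓ Subgroup.normalizer (V : Set G) :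
        Subgroup G) : ℤ) *
        lnum (Subgroup.normalizer (Q : Set G) ⊓ Subgroup.normalizer (V : Set G)) e := by
    intro Q V hQ hV
    rw [hf]
    have h3 : ({⊥, Q, V} : Finset (Subgroup G)).card = 3 :=
      Finset.card_eq_three.2 ⟨⊥, Q, V, nb Q hQ, nb2 V hV, nqv Q V hQ hV, rfl⟩
    simp only [stab_two, h3]
    norm_num
  -- the three sums
  have s1 : ∑ d ∈ S.filter (fun d => Nat.card (top d) = 1), f d = f {⊥} := by
    have h1 : S.filter (fun d => Nat.card (top d) = 1) = {{⊥}} := by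
      ext d
      rw [Finset.mem_filter, Finset.mem_singleton, hmem]
      constructor
      · rintro ⟨h1, h2⟩
        exact h1.one h2
      · rintro rfl
        refine ⟨ch_bot, ?_⟩
        rw [top_bot, Subgroup.card_bot]
    rw [h1, Finset.sum_singleton]
  have s2 : ∑ d ∈ S.filter (fun d => Nat.card (top d) = ℓ), f d =
      ∑ Q ∈ Finset.univ.filter (fun Q : Subgroup G => Nat.card Q = ℓ), f {⊥, Q} := by
    symm
    refine Finset.sum_nbij' (fun Q => {⊥, Q}) (fun d => top d) ?_ ?_ ?_ ?_ ?_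
    · intro Q hQ
      have h1 := (Finset.mem_filter.1 hQ).2
      refine Finset.mem_filter.2 ⟨(hmem _).2 (ch_one (IsPGroup.of_card (n := 1) ?_)), ?_⟩
      · rw [h1, pow_one]
      · rw [top_one, h1]
    · intro d hd
      exact Finset.mem_filter.2 ⟨Finset.mem_univ _, (Finset.mem_filter.1 hd).2⟩
    · intro Q _
      exact top_one Q
    · intro d hd
      obtain ⟨h1, h2⟩ := Finset.mem_filter.1 hd
      exact (((hmem d).1 h1).small hl h2).symm
    · intro Q _
      rfl
  have s3 : ∑ d ∈ (S.filter (fun d => Nat.card (top d) = ℓ ^ 2)).filter (fun d => d.card = 2),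
      f d = ∑ V ∈ Finset.univ.filter (fun V : Subgroup G => Nat.card V = ℓ ^ 2), f {⊥, V} := by
    symm
    refine Finset.sum_nbij' (fun Q => {⊥, Q}) (fun d => top d) ?_ ?_ ?_ ?_ ?_
    · intro Q hQ
      have h1 := (Finset.mem_filter.1 hQ).2
      refine Finset.mem_filter.2 ⟨Finset.mem_filter.2 ⟨(hmem _).2 (ch_one
        (IsPGroup.of_card (n := 2) h1)), ?_⟩, ?_⟩
      · rw [top_one, h1]
      · exact Finset.card_pair (nb2 Q h1)
    · intro d hd
      exact Finset.mem_filter.2 ⟨Finset.mem_univ _,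
        (Finset.mem_filter.1 (Finset.mem_filter.1 hd).1).2⟩
    · intro Q _
      exact top_one Q
    · intro d hd
      obtain ⟨h0, h3⟩ := Finset.mem_filter.1 hd
      obtain ⟨h1, h2⟩ := Finset.mem_filter.1 h0
      rcases ((hmem d).1 h1).two hl h2 with h4 | ⟨Q, h5, h6, h7⟩
      · exact h4.symm
      · exfalso
        rw [h7, Finset.card_eq_three.2 ⟨⊥, Q, top d, nb Q h5, nb2 _ h2, nqv Q _ h5 h2, rfl⟩] at h3
        norm_num at h3
    · intro Q _
      rfl
  have s4 : ∑ d ∈ (S.filter (fun d => Nat.card (top d) = ℓ ^ 2)).filter (fun d => ¬ d.card = 2),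
      f d = ∑ Q ∈ Finset.univ.filter (fun Q : Subgroup G => Nat.card Q = ℓ),
        ∑ V ∈ Finset.univ.filter (fun V : Subgroup G => Nat.card V = ℓ ^ 2 ∧ Q ≤ V),
          f {⊥, Q, V} := by
    symm
    rw [Finset.sum_sigma']
    refine Finset.sum_bij (fun x _ => ({⊥, x.1, x.2} : Finset (Subgroup G))) ?_ ?_ ?_ ?_
    · rintro ⟨Q, V⟩ hx
      obtain ⟨hQ, hV⟩ := Finset.mem_sigma.1 hx
      have h1 : Nat.card Q = ℓ := (Finset.mem_filter.1 hQ).2
      obtain ⟨h2, h3⟩ : Nat.card V = ℓ ^ 2 ∧ Q ≤ V := (Finset.mem_filter.1 hV).2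
      refine Finset.mem_filter.2 ⟨Finset.mem_filter.2 ⟨(hmem _).2 (ch_two
        (IsPGroup.of_card (n := 2) h2) h3 (sq_norm h2 h3)), ?_⟩, ?_⟩
      · rw [top_two h3, h2]
      · rw [Finset.card_eq_three.2 ⟨⊥, Q, V, nb Q h1, nb2 V h2, nqv Q V h1 h2, rfl⟩]
        norm_num
    · rintro ⟨Q, V⟩ hx ⟨Q', V'⟩ hx' heq
      obtain ⟨hQ, hV⟩ := Finset.mem_sigma.1 hx
      have h1 : Nat.card Q = ℓ := (Finset.mem_filter.1 hQ).2
      obtain ⟨h2, h3⟩ : Nat.card V = ℓ ^ 2 ∧ Q ≤ V := (Finset.mem_filter.1 hV).2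
      obtain ⟨hQ', hV'⟩ := Finset.mem_sigma.1 hx'
      have h1' : Nat.card Q' = ℓ := (Finset.mem_filter.1 hQ').2
      obtain ⟨h2', h3'⟩ : Nat.card V' = ℓ ^ 2 ∧ Q' ≤ V' := (Finset.mem_filter.1 hV').2
      have heq' : ({⊥, Q, V} : Finset (Subgroup G)) = {⊥, Q', V'} := heq
      have h4 : V = V' := by
        rw [← top_two h3, heq', top_two h3']
      have h5 : Q ∈ ({⊥, Q', V'} : Finset (Subgroup G)) := by
        rw [← heq']
        simp
      have h6 : Q = Q' := by
        rcases Finset.mem_insert.1 h5 with h | h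
        · exact absurd h.symm (nb Q h1)
        · rcases Finset.mem_insert.1 h with h | h
          · exact h
          · exact absurd (Finset.mem_singleton.1 h) (nqv Q V' h1 h2')
      rw [h4, h6]
    · intro d hd
      obtain ⟨h0, h3⟩ := Finset.mem_filter.1 hd
      obtain ⟨h1, h2⟩ := Finset.mem_filter.1 h0
      rcases ((hmem d).1 h1).two hl h2 with h4 | ⟨Q, h5, h6, h7⟩
      · exfalso
        apply h3
        rw [h4]
        exact Finset.card_pair (nb2 _ h2)
      · refine ⟨⟨Q, top d⟩, ?_, h7.symm⟩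
        exact Finset.mem_sigma.2 ⟨Finset.mem_filter.2 ⟨Finset.mem_univ _, h5⟩,
          Finset.mem_filter.2 ⟨Finset.mem_univ _, h2, h6⟩⟩
    · intro x _
      rfl
  -- the splitting
  have e1 := Finset.sum_filter_add_sum_filter_not S (fun d => Nat.card (top d) = 1) f
  have e2 := Finset.sum_filter_add_sum_filter_not
    (S.filter (fun d => ¬ Nat.card (top d) = 1)) (fun d => Nat.card (top d) = ℓ) f
  have e2' : (S.filter (fun d => ¬ Nat.card (top d) = 1)).filter
      (fun d => Nat.card (top d) = ℓ) = S.filter (fun d => Nat.card (top d) = ℓ) := by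
    ext d
    simp only [Finset.mem_filter]
    constructor
    · rintro ⟨⟨h1, _⟩, h3⟩
      exact ⟨h1, h3⟩
    · rintro ⟨h1, h3⟩
      exact ⟨⟨h1, by rw [h3]; exact n1⟩, h3⟩
  have e3 : ∑ d ∈ S.filter (fun d => Nat.card (top d) = ℓ ^ 2), f d =
      ∑ d ∈ (S.filter (fun d => ¬ Nat.card (top d) = 1)).filter
        (fun d => ¬ Nat.card (top d) = ℓ), f d := by
    refine Finset.sum_subset ?_ ?_
    · intro d hd
      obtain ⟨h1, h2⟩ := Finset.mem_filter.1 hd
      refine Finset.mem_filter.2 ⟨Finset.mem_filter.2 ⟨h1, ?_⟩, ?_⟩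
      · rw [h2]
        exact n2
      · rw [h2]
        exact n3
    · intro d hd hd'
      obtain ⟨h0, h3⟩ := Finset.mem_filter.1 hd
      obtain ⟨h1, h2⟩ := Finset.mem_filter.1 h0
      by_contra h4
      rcases hord d ((hmem d).1 h1) h4 with h5 | h5 | h5
      · exact h2 h5
      · exact h3 h5
      · exact hd' (Finset.mem_filter.2 ⟨h1, h5⟩)
  have e4 := Finset.sum_filter_add_sum_filter_not
    (S.filter (fun d => Nat.card (top d) = ℓ ^ 2)) (fun d => d.card = 2) f
  rw [e2'] at e2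
  rw [hYY, ← e1, ← e2, ← e3, ← e4, s1, s2, s3, s4, v0]
  -- the right side
  have r1 : ∑ Q ∈ Finset.univ.filter (fun Q : Subgroup G => Nat.card Q = ℓ), f {⊥, Q} =
      -∑ᶠ (Q : Subgroup G) (_ : Nat.card Q = ℓ),
        (Nat.card (Subgroup.normalizer (Q : Set G)) : ℤ) *
          lnum (Subgroup.normalizer (Q : Set G)) e := by
    rw [finsum_eq_sum_of_fintype]
    simp only [finsum_eq_if]
    rw [← Finset.sum_filter, ← Finset.sum_neg_distrib]
    refine Finset.sum_congr rfl ?_
    intro Q hQ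
    exact v1 Q (nb Q (Finset.mem_filter.1 hQ).2)
  have r2 : ∑ V ∈ Finset.univ.filter (fun V : Subgroup G => Nat.card V = ℓ ^ 2), f {⊥, V} =
      -∑ᶠ (V : Subgroup G) (_ : Nat.card V = ℓ ^ 2),
        (Nat.card (Subgroup.normalizer (V : Set G)) : ℤ) *
          lnum (Subgroup.normalizer (V : Set G)) e := by
    rw [finsum_eq_sum_of_fintype]
    simp only [finsum_eq_if]
    rw [← Finset.sum_filter, ← Finset.sum_neg_distrib]
    refine Finset.sum_congr rfl ?_
    intro V hV
    exact v1 V (nb2 V (Finset.mem_filter.1 hV).2)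
  have r3 : ∑ Q ∈ Finset.univ.filter (fun Q : Subgroup G => Nat.card Q = ℓ),
        ∑ V ∈ Finset.univ.filter (fun V : Subgroup G => Nat.card V = ℓ ^ 2 ∧ Q ≤ V),
          f {⊥, Q, V} = ∑ᶠ (Q : Subgroup G) (_ : Nat.card Q = ℓ), ∑ᶠ (V : Subgroup G)
        (_ : Nat.card V = ℓ ^ 2 ∧ Q ≤ V),
        (Nat.card (Subgroup.normalizer (Q : Set G) ⊓ Subgroup.normalizer (V : Set G) :
          Subgroup G) : ℤ) *
          lnum (Subgroup.normalizer (Q : Set G) ⊓ Subgroup.normalizer (V : Set G)) e := by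
    rw [finsum_eq_sum_of_fintype]
    simp only [finsum_eq_if]
    rw [← Finset.sum_filter]
    refine Finset.sum_congr rfl ?_
    intro Q hQ
    rw [finsum_eq_sum_of_fintype, ← Finset.sum_filter]
    refine Finset.sum_congr rfl ?_
    intro V hV
    exact v2 Q V (Finset.mem_filter.1 hQ).2 (Finset.mem_filter.1 hV).2.1
  rw [r1, r2, r3]
  ring

end Pool.Agent.PP.K9.H56
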